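import Pool.Agent.H583Z.TA.P6b
import Pool.Agent.H667Z.TA.P7ab

set_option autoImplicit false
set_option linter.unusedSectionVars false
set_option linter.unusedVariables false

namespace Pool.Agent.H754Z.TA

open MeasureTheory Filter Topology Pointwise

universe u v

section
variable {G : Type u} [Group G] [TopologicalSpace G] [IsTopologicalGroup G]
    {ν : G → ℝ} {C : ℝ} {E : Type v} [NormedAddCommGroup E] [InnerProductSpace ℂ E]
    [CompleteSpace E] {T : G → E →L[ℂ] E}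

theorem Sm.fix {ξ : E} (hξ : Sm ν T ξ) (k : G) (hk : ν k = 0) : T k ξ = ξ := by
  obtain ⟨M, r, hM, hr, h1, -⟩ := hξ
  have := h1 k (by rw [hk]; exact hr.le)
  rw [hk, mul_zero] at this
  exact sub_eq_zero.mp (norm_le_zero_iff.mp this)

namespace P7cA

theorem orbit_mul (hT : IsURep T) {ξ : E} (hξ : Sm ν T ξ) {M : ℝ} {γ : ℝ → G}
    (hγ : IsOP ν M γ) (s t : ℝ) : T (γ s * γ t) ξ = T (γ (s + t)) ξ := by
  have e : γ s * γ t = γ (s + t) * ((γ (s + t))⁻¹ * (γ s * γ t)) := by group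
  rw [e, hT.mul, hξ.fix _ (hγ.hom s t)]

theorem orbit_add (hT : IsURep T) {ξ : E} (hξ : Sm ν T ξ) {M : ℝ} {γ : ℝ → G}
    (hγ : IsOP ν M γ) (s t : ℝ) : T (γ s) (T (γ t) ξ) = T (γ (s + t)) ξ := by
  rw [← hT.mul, orbit_mul hT hξ hγ]

theorem orbit_zero (h : IsGN ν C) {ξ : E} (hξ : Sm ν T ξ) {M : ℝ} {γ : ℝ → G}
    (hγ : IsOP ν M γ) : T (γ 0) ξ = ξ := by
  apply hξ.fix
  have := hγ.lip 0
  rw [abs_zero, mul_zero] at this
  exact le_antisymm this (h.nonneg _)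

theorem inner_map (hT : IsURep T) (x : G) (a b : E) :
    (inner ℂ (T x a) (T x b) : ℂ) = inner ℂ a b := by
  let L : E →ₗᵢ[ℂ] E := ⟨(T x : E →ₗ[ℂ] E), fun a => hT.norm_eq x a⟩
  exact L.inner_map_map a b

theorem im_self (a : E) : (inner ℂ a a : ℂ).im = 0 := by
  have := inner_self_im (𝕜 := ℂ) a
  simpa using this

theorem abs_im_le (a b : E) : |(inner ℂ a b : ℂ).im| ≤ ‖a‖ * ‖b‖ :=
  (Complex.abs_im_le_norm _).trans (norm_inner_le_norm a b)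

theorem hasDerivAt_of_quad (c : ℝ → E) (w : E) (t₀ B r : ℝ) (hr : 0 < r)
    (hq : ∀ s, |s| ≤ r → ‖c (t₀ + s) - c t₀ - s • w‖ ≤ B * s ^ 2) : HasDerivAt c w t₀ := by
  rw [hasDerivAt_iff_isLittleO_nhds_zero]
  have h1 : (fun s : ℝ => c (t₀ + s) - c t₀ - s • w) =O[𝓝 0] fun s : ℝ => s ^ 2 := by
    refine Asymptotics.IsBigO.of_bound B ?_
    have : ∀ᶠ s : ℝ in 𝓝 0, |s| ≤ r := by
      have := Metric.closedBall_mem_nhds (0 : ℝ) hr
      filter_upwards [this] with s hs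
      simpa [Real.dist_eq] using hs
    filter_upwards [this] with s hs
    rw [Real.norm_eq_abs, abs_of_nonneg (sq_nonneg s)]
    exact hq s hs
  exact h1.trans_isLittleO (Asymptotics.isLittleO_pow_id (by norm_num))

theorem quad_aux (h : IsGN ν C) (hT : IsURep T) {ξ : E} (hξ : Sm ν T ξ) (M : ℝ) (hM : 0 ≤ M) :
    ∃ B r : ℝ, 0 ≤ B ∧ 0 < r ∧ ∀ γ, IsOP ν M γ → ∃ w : E, ∀ t : ℝ, |t| ≤ r →
      ‖T (γ t) ξ - T (γ 0) ξ - t • w‖ ≤ B * t ^ 2 := by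
  obtain ⟨M0, r0, hM0, hr0, h1, h2⟩ := id hξ
  refine ⟨M0 * M + M0 * M ^ 2, r0 / (M + 1), by positivity, by positivity, fun γ hγ => ?_⟩
  have hsm : ∀ t : ℝ, |t| ≤ r0 / (M + 1) → ν (γ t) ≤ r0 := by
    intro t ht
    have h3 : |t| * (M + 1) ≤ r0 := (le_div_iff₀ (by positivity)).mp ht
    have := hγ.lip t
    nlinarith [abs_nonneg t]
  refine second_diff (fun t => T (γ t) ξ) (M0 * M + M0 * M ^ 2) (r0 / (M + 1)) (by positivity)
    (by positivity) ?_ ?_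
  · intro t ht
    simp only [orbit_zero h hξ hγ]
    have a1 := h1 _ (hsm t ht)
    have a2 : M0 * ν (γ t) ≤ M0 * (M * |t|) := mul_le_mul_of_nonneg_left (hγ.lip t) hM0
    have a3 : 0 ≤ M0 * M ^ 2 * |t| := by positivity
    nlinarith
  · intro s t hs ht
    simp only [orbit_zero h hξ hγ]
    rw [← orbit_mul hT hξ hγ]
    have a1 := h2 _ _ (hsm s hs) (hsm t ht)
    have a2 : M0 * ν (γ s) * ν (γ t) ≤ M0 * (M * |s|) * (M * |t|) := by
      apply mul_le_mul (mul_le_mul_of_nonneg_left (hγ.lip s) hM0) (hγ.lip t) (h.nonneg _)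
      positivity
    have a3 : 0 ≤ M0 * M * |s| * |t| := by positivity
    nlinarith

theorem hasDerivAt_orbit (h : IsGN ν C) (hT : IsURep T) {ξ : E} (hξ : Sm ν T ξ) {M : ℝ}
    (hM : 0 ≤ M) {γ : ℝ → G} (hγ : IsOP ν M γ) :
    HasDerivAt (fun t : ℝ => T (γ t) ξ) (dv T γ ξ) 0 := by
  obtain ⟨B, r, hB, hr, H⟩ := quad_aux h hT hξ M hM
  obtain ⟨w, hw⟩ := H γ hγ
  have hd : HasDerivAt (fun t : ℝ => T (γ t) ξ) w 0 :=
    hasDerivAt_of_quad _ w 0 B r hr (fun s hs => by simpa using hw s hs)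
  have : dv T γ ξ = w := hd.deriv
  rw [this]
  exact hd

end P7cA

open P7cA

theorem op_quad (h : IsGN ν C) (hT : IsURep T) {ξ : E} (hξ : Sm ν T ξ) (M : ℝ) (hM : 0 ≤ M) :
    ∃ B r : ℝ, 0 ≤ B ∧ 0 < r ∧ ∀ γ, IsOP ν M γ → ∀ t, |t| ≤ r →
      ‖T (γ t) ξ - ξ - (t : ℂ) • dv T γ ξ‖ ≤ B * t ^ 2 := by
  obtain ⟨B, r, hB, hr, H⟩ := quad_aux h hT hξ M hM
  refine ⟨B, r, hB, hr, fun γ hγ t ht => ?_⟩
  obtain ⟨w, hw⟩ := H γ hγ
  have hd : HasDerivAt (fun t : ℝ => T (γ t) ξ) w 0 :=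
    hasDerivAt_of_quad _ w 0 B r hr (fun s hs => by simpa using hw s hs)
  have e : dv T γ ξ = w := hd.deriv
  have := hw t ht
  rw [orbit_zero h hξ hγ] at this
  rw [e, Complex.coe_smul]
  exact this

theorem im_add (h : IsGN ν C) (hT : IsURep T) {ξ : E} (hξ : Sm ν T ξ) :
    ∃ B r : ℝ, 0 ≤ B ∧ 0 < r ∧ (∀ x, ν x ≤ r → |(inner ℂ ξ (T x ξ) : ℂ).im| ≤ B * ν x) ∧
      ∀ x y, ν x ≤ r → ν y ≤ r →
      |(inner ℂ ξ (T (x * y) ξ) : ℂ).im - (inner ℂ ξ (T x ξ) : ℂ).im -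
        (inner ℂ ξ (T y ξ) : ℂ).im| ≤ B * ν x * ν y := by
  obtain ⟨M0, r0, hM0, hr0, h1, h2⟩ := id hξ
  refine ⟨‖ξ‖ * M0, r0, by positivity, hr0, fun x hx => ?_, fun x y hx hy => ?_⟩
  · have e : (inner ℂ ξ (T x ξ) : ℂ).im = (inner ℂ ξ (T x ξ - ξ) : ℂ).im := by
      rw [inner_sub_right, Complex.sub_im, im_self, sub_zero]
    rw [e]
    refine (abs_im_le _ _).trans ?_
    rw [mul_assoc]
    exact mul_le_mul_of_nonneg_left (h1 x hx) (norm_nonneg _)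
  · have e : (inner ℂ ξ (T (x * y) ξ) : ℂ).im - (inner ℂ ξ (T x ξ) : ℂ).im -
        (inner ℂ ξ (T y ξ) : ℂ).im = (inner ℂ ξ (T (x * y) ξ - T x ξ - T y ξ + ξ) : ℂ).im := by
      rw [inner_add_right, inner_sub_right, inner_sub_right, Complex.add_im, Complex.sub_im,
        Complex.sub_im, im_self, add_zero]
    rw [e]
    refine (abs_im_le _ _).trans ?_
    have := mul_le_mul_of_nonneg_left (h2 x y hx hy) (norm_nonneg ξ)
    linarith [mul_assoc ‖ξ‖ M0 (ν x), mul_assoc ‖ξ‖ (M0 * ν x) (ν y),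
      congrArg (· * ν y) (mul_assoc ‖ξ‖ M0 (ν x))]

namespace P7cA

theorem im_double (h : IsGN ν C) (hT : IsURep T) {ξ : E} (hξ : Sm ν T ξ) :
    ∃ B r : ℝ, 0 ≤ B ∧ 0 < r ∧ ∀ x, ν x ≤ r →
      |(inner ℂ ξ (T (x * x) ξ) : ℂ).im - 2 * (inner ℂ ξ (T x ξ) : ℂ).im| ≤ B * ν x ^ 3 := by
  obtain ⟨M0, r0, hM0, hr0, h1, h2⟩ := id hξ
  refine ⟨M0 * M0, r0, by positivity, hr0, fun x hx => ?_⟩
  have e1 : (inner ℂ (T x ξ) (T (x * x) ξ) : ℂ) = inner ℂ ξ (T x ξ) := by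
    rw [hT.mul, inner_map hT]
  have e2 : (inner ℂ (T x ξ) ξ : ℂ).im = -(inner ℂ ξ (T x ξ) : ℂ).im := by
    rw [← inner_conj_symm, Complex.conj_im]
  have e : (inner ℂ ξ (T (x * x) ξ) : ℂ).im - 2 * (inner ℂ ξ (T x ξ) : ℂ).im =
      -(inner ℂ (T x ξ - ξ) (T (x * x) ξ - T x ξ - T x ξ + ξ) : ℂ).im := by
    simp only [inner_add_right, inner_sub_right, inner_sub_left, Complex.add_im, Complex.sub_im,
      im_self, e1, e2]
    ring
  rw [e, abs_neg]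
  refine (abs_im_le _ _).trans ?_
  have a := mul_le_mul (h1 x hx) (h2 x x hx hx) (norm_nonneg _)
    (mul_nonneg hM0 (h.nonneg x))
  calc _ ≤ M0 * ν x * (M0 * ν x * ν x) := a
    _ = M0 * M0 * ν x ^ 3 := by ring

theorem halve (α : ℝ → ℝ) (K B r : ℝ) (hK : 0 ≤ K) (hB : 0 ≤ B)
    (h1 : ∀ t, |t| ≤ r → |α (t + t) - 2 * α t| ≤ K * |t| ^ 3)
    (h2 : ∀ t, |t| ≤ r → |α t| ≤ B * t ^ 2) (t : ℝ) (ht : |t| ≤ r) : |α t| ≤ K * |t| ^ 3 := by
  have key : ∀ n : ℕ, ∀ t, |t| ≤ r → |α t| ≤ K * |t| ^ 3 + B * t ^ 2 * (1 / 2) ^ n := by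
    intro n
    induction n with
    | zero =>
      intro t ht
      have := h2 t ht
      have : 0 ≤ K * |t| ^ 3 := by positivity
      simp only [pow_zero, mul_one]
      linarith
    | succ n ih =>
      intro t ht
      have hh : |t / 2| = |t| / 2 := by rw [abs_div, abs_two]
      have ht2 : |t / 2| ≤ r := by rw [hh]; linarith [abs_nonneg t]
      have a1 := ih _ ht2
      have a2 := h1 _ ht2
      rw [add_halves, hh] at a2
      rw [hh] at a1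
      have a3 : |α t| ≤ |α t - 2 * α (t / 2)| + 2 * |α (t / 2)| := by
        have := abs_add_le (α t - 2 * α (t / 2)) (2 * α (t / 2))
        rw [sub_add_cancel, abs_mul, abs_two] at this
        exact this
      have a4 : 0 ≤ K * |t| ^ 3 := by positivity
      have e1 : K * (|t| / 2) ^ 3 = K * |t| ^ 3 / 8 := by ring
      have e2 : B * (t / 2) ^ 2 * (1 / 2) ^ n = B * t ^ 2 * (1 / 2) ^ (n + 1) / 2 := by ring
      rw [e1] at a1 a2
      rw [e2] at a1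
      linarith
  have lim : Tendsto (fun n : ℕ => K * |t| ^ 3 + B * t ^ 2 * (1 / 2 : ℝ) ^ n) atTop
      (𝓝 (K * |t| ^ 3 + B * t ^ 2 * 0)) :=
    tendsto_const_nhds.add (tendsto_const_nhds.mul
      (tendsto_pow_atTop_nhds_zero_of_lt_one (by norm_num) (by norm_num)))
  rw [mul_zero, add_zero] at lim
  exact ge_of_tendsto' lim (fun n => key n t ht)

end P7cA

theorem op_cubic (h : IsGN ν C) (hT : IsURep T) {ξ : E} (hξ : Sm ν T ξ) (M : ℝ) (hM : 0 ≤ M) :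
    ∃ B r : ℝ, 0 ≤ B ∧ 0 < r ∧ ∀ γ, IsOP ν M γ → ∀ t, |t| ≤ r →
      |(inner ℂ ξ (T (γ t) ξ) : ℂ).im - t * ell T γ ξ| ≤ B * |t| ^ 3 := by
  obtain ⟨B1, r1, hB1, hr1, H1⟩ := op_quad h hT hξ M hM
  obtain ⟨B2, r2, hB2, hr2, H2⟩ := im_double h hT hξ
  refine ⟨B2 * M ^ 3, min r1 (r2 / (M + 1)), by positivity, by positivity, fun γ hγ t ht => ?_⟩
  refine halve (fun t => (inner ℂ ξ (T (γ t) ξ) : ℂ).im - t * ell T γ ξ) (B2 * M ^ 3)
    (‖ξ‖ * B1) (min r1 (r2 / (M + 1))) (by positivity) (by positivity) ?_ ?_ t ht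
  · intro t ht
    have h3 : |t| * (M + 1) ≤ r2 := (le_div_iff₀ (by positivity)).mp (ht.trans (min_le_right _ _))
    have h4 := hγ.lip t
    have h5 : ν (γ t) ≤ r2 := by nlinarith [abs_nonneg t]
    have a := H2 _ h5
    rw [orbit_mul hT hξ hγ] at a
    have e : (inner ℂ ξ (T (γ (t + t)) ξ) : ℂ).im - (t + t) * ell T γ ξ -
        2 * ((inner ℂ ξ (T (γ t) ξ) : ℂ).im - t * ell T γ ξ) =
        (inner ℂ ξ (T (γ (t + t)) ξ) : ℂ).im - 2 * (inner ℂ ξ (T (γ t) ξ) : ℂ).im := by ring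
    rw [e]
    refine a.trans ?_
    have h6 : ν (γ t) ^ 3 ≤ (M * |t|) ^ 3 := pow_le_pow_left₀ (h.nonneg _) h4 3
    calc B2 * ν (γ t) ^ 3 ≤ B2 * (M * |t|) ^ 3 := mul_le_mul_of_nonneg_left h6 hB2
      _ = B2 * M ^ 3 * |t| ^ 3 := by ring
  · intro t ht
    have a := H1 γ hγ t (ht.trans (min_le_left _ _))
    have e : (inner ℂ ξ (T (γ t) ξ) : ℂ).im - t * ell T γ ξ =
        (inner ℂ ξ (T (γ t) ξ - ξ - (t : ℂ) • dv T γ ξ) : ℂ).im := by
      rw [inner_sub_right, inner_sub_right, inner_smul_right, Complex.sub_im, Complex.sub_im,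
        im_self, Complex.im_ofReal_mul, sub_zero, ell]
    rw [e]
    refine (abs_im_le _ _).trans ?_
    rw [mul_assoc]
    exact mul_le_mul_of_nonneg_left a (norm_nonneg _)

theorem blow_ell (h : IsGN ν C) (hT : IsURep T) {ξ : E} (hξ : Sm ν T ξ) {ι : Type*}
    (𝒰 : Ultrafilter ι) (x : ι → G) (ε : ι → ℝ) (M : ℝ) (hM : 0 ≤ M)
    (hε : ∀ᶠ i in 𝒰, 0 < ε i) (hε0 : Tendsto ε 𝒰 (𝓝 0)) (γ : ℝ → G) (hγ : IsOP ν M γ)
    (hx : ∀ᶠ i in 𝒰, ν (x i) ≤ M * ε i)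
    (hl : Tendsto (fun i => ν ((γ (ε i))⁻¹ * x i) / ε i) 𝒰 (𝓝 0)) :
    Tendsto (fun i => (inner ℂ ξ (T (x i) ξ) : ℂ).im / ε i) 𝒰 (𝓝 (ell T γ ξ)) := by
  obtain ⟨B1, r1, hB1, hr1, H1⟩ := op_cubic h hT hξ M hM
  obtain ⟨B2, r2, hB2, hr2, H2, H3⟩ := im_add h hT hξ
  rw [← tendsto_sub_nhds_zero_iff]
  have lim : Tendsto (fun i => B1 * ε i ^ 2 + B2 * (ν ((γ (ε i))⁻¹ * x i) / ε i) +
      B2 * M * ε i * (ν ((γ (ε i))⁻¹ * x i) / ε i)) 𝒰
      (𝓝 (B1 * 0 ^ 2 + B2 * 0 + B2 * M * 0 * 0)) :=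
    ((tendsto_const_nhds.mul (hε0.pow 2)).add (tendsto_const_nhds.mul hl)).add
      ((tendsto_const_nhds.mul hε0).mul hl)
  simp only [ne_eq, OfNat.ofNat_ne_zero, not_false_eq_true, zero_pow, mul_zero, add_zero] at lim
  refine squeeze_zero_norm' ?_ lim
  have e1 : ∀ᶠ i in 𝒰, ε i < min r1 (r2 / (M + 1)) := hε0.eventually (gt_mem_nhds (by positivity))
  have e2 : ∀ᶠ i in 𝒰, ν ((γ (ε i))⁻¹ * x i) / ε i < 1 := hl.eventually (gt_mem_nhds one_pos)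
  filter_upwards [hε, e1, e2] with i i0 i1 i2
  set e := ε i with he
  set y := (γ e)⁻¹ * x i with hy
  have hxy : x i = γ e * y := by rw [hy]; group
  have h3 : e * (M + 1) ≤ r2 := (le_div_iff₀ (by positivity)).mp (i1.le.trans (min_le_right _ _))
  have h4 : ν (γ e) ≤ M * e := by have := hγ.lip e; rwa [abs_of_pos i0] at this
  have h5 : ν (γ e) ≤ r2 := by nlinarith
  have h6 : ν y < e := by rwa [div_lt_one i0] at i2
  have h7 : ν y ≤ r2 := by nlinarith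
  have a1 := H1 γ hγ e (by rw [abs_of_pos i0]; exact i1.le.trans (min_le_left _ _))
  rw [abs_of_pos i0] at a1
  have a2 := H2 y h7
  have a3 := H3 _ _ h5 h7
  rw [← hxy] at a3
  have a4 : B2 * ν (γ e) * ν y ≤ B2 * (M * e) * ν y :=
    mul_le_mul_of_nonneg_right (mul_le_mul_of_nonneg_left h4 hB2) (h.nonneg _)
  have e3 : (inner ℂ ξ (T (x i) ξ) : ℂ).im / e - ell T γ ξ =
      ((inner ℂ ξ (T (x i) ξ) : ℂ).im - e * ell T γ ξ) / e := by field_simp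
  have e4 : B1 * e ^ 2 + B2 * (ν y / e) + B2 * M * e * (ν y / e) =
      (B1 * e ^ 3 + B2 * ν y + B2 * (M * e) * ν y) / e := by field_simp
  rw [Real.norm_eq_abs, e3, e4, abs_div, abs_of_pos i0]
  refine div_le_div_of_nonneg_right ?_ i0.le
  rw [abs_le] at a1 a2 a3 ⊢
  constructor <;> linarith [a1.1, a1.2, a2.1, a2.2, a3.1, a3.2]

theorem op_smul (h : IsGN ν C) (hT : IsURep T) {M : ℝ} (hM : 0 ≤ M) {γ : ℝ → G}
    (hγ : IsOP ν M γ) (c : ℝ) :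
    IsOP ν (M * |c|) (fun t => γ (c * t)) ∧
      ∀ ξ, Sm ν T ξ → ell T (fun t => γ (c * t)) ξ = c * ell T γ ξ := by
  refine ⟨⟨fun s t => ?_, fun t => ?_⟩, fun ξ hξ => ?_⟩
  · simp only [mul_add]
    exact hγ.hom _ _
  · have := hγ.lip (c * t)
    rwa [abs_mul, ← mul_assoc] at this
  · have hd := hasDerivAt_orbit h hT hξ hM hγ
    have hc : HasDerivAt (fun t : ℝ => c * t) c 0 := by
      simpa using (hasDerivAt_id (0 : ℝ)).const_mul c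
    have hd' : HasDerivAt (fun t : ℝ => T (γ t) ξ) (dv T γ ξ) (c * 0) := by
      rw [mul_zero]; exact hd
    have hcomp := hd'.scomp (0 : ℝ) hc
    have e : dv T (fun t => γ (c * t)) ξ = c • dv T γ ξ := hcomp.deriv
    rw [ell, e, ← Complex.coe_smul, inner_smul_right, Complex.im_ofReal_mul, ell]

theorem op_add (h : IsGN ν C) (hT : IsURep T) {M₁ M₂ : ℝ} (hM₁ : 0 ≤ M₁) (hM₂ : 0 ≤ M₂)
    {γ₁ γ₂ : ℝ → G} (h₁ : IsOP ν M₁ γ₁) (h₂ : IsOP ν M₂ γ₂) :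
    ∃ γ, IsOP ν (M₁ + M₂) γ ∧ ∀ ξ, Sm ν T ξ → ell T γ ξ = ell T γ₁ ξ + ell T γ₂ ξ := by
  let ε : ℕ → ℝ := fun n => 1 / ((n : ℝ) + 1)
  have hε : ∀ n, 0 < ε n := fun n => by positivity
  have hε0 : Tendsto ε (hyperfilter ℕ) (𝓝 0) :=
    tendsto_one_div_add_atTop_nhds_zero_nat.mono_left Nat.hyperfilter_le_atTop
  have l1 : ∀ n, ν (γ₁ (ε n)) ≤ M₁ * ε n := fun n => by
    have := h₁.lip (ε n); rwa [abs_of_pos (hε n)] at this
  have l2 : ∀ n, ν (γ₂ (ε n)) ≤ M₂ * ε n := fun n => by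
    have := h₂.lip (ε n); rwa [abs_of_pos (hε n)] at this
  have hx : ∀ n, ν (γ₁ (ε n) * γ₂ (ε n)) ≤ (M₁ + M₂) * ε n := fun n => by
    have := h.mul (γ₁ (ε n)) (γ₂ (ε n))
    linarith [l1 n, l2 n, add_mul M₁ M₂ (ε n)]
  obtain ⟨γ, hγ, -, hl⟩ := h.blowup (hyperfilter ℕ) (fun n => γ₁ (ε n) * γ₂ (ε n)) ε (M₁ + M₂)
    (by positivity) (Eventually.of_forall hε) hε0 (Eventually.of_forall hx)
  refine ⟨γ, hγ, fun ξ hξ => ?_⟩
  have t0 := blow_ell h hT hξ (hyperfilter ℕ) (fun n => γ₁ (ε n) * γ₂ (ε n)) ε (M₁ + M₂)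
    (by positivity) (Eventually.of_forall hε) hε0 γ hγ (Eventually.of_forall hx) hl
  have t1 := blow_ell h hT hξ (hyperfilter ℕ) (fun n => γ₁ (ε n)) ε M₁
    hM₁ (Eventually.of_forall hε) hε0 γ₁ h₁ (Eventually.of_forall l1)
    (by simp [h.one])
  have t2 := blow_ell h hT hξ (hyperfilter ℕ) (fun n => γ₂ (ε n)) ε M₂
    hM₂ (Eventually.of_forall hε) hε0 γ₂ h₂ (Eventually.of_forall l2)
    (by simp [h.one])
  obtain ⟨B, r, hB, hr, -, H⟩ := im_add h hT hξ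
  have t3 : Tendsto (fun n => (inner ℂ ξ (T (γ₁ (ε n) * γ₂ (ε n)) ξ) : ℂ).im / ε n -
      (inner ℂ ξ (T (γ₁ (ε n)) ξ) : ℂ).im / ε n - (inner ℂ ξ (T (γ₂ (ε n)) ξ) : ℂ).im / ε n)
      (hyperfilter ℕ) (𝓝 0) := by
    have lim : Tendsto (fun n => B * M₁ * M₂ * ε n) (hyperfilter ℕ) (𝓝 (B * M₁ * M₂ * 0)) :=
      tendsto_const_nhds.mul hε0
    rw [mul_zero] at lim
    refine squeeze_zero_norm' ?_ lim
    have e1 : ∀ᶠ n in (hyperfilter ℕ : Filter ℕ), ε n < r / (M₁ + M₂ + 1) :=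
      hε0.eventually (gt_mem_nhds (by positivity))
    filter_upwards [e1] with n hn
    have h3 : ε n * (M₁ + M₂ + 1) ≤ r := (le_div_iff₀ (by positivity)).mp hn.le
    have h0 := hε n
    have a1 : ν (γ₁ (ε n)) ≤ r := by nlinarith [l1 n]
    have a2 : ν (γ₂ (ε n)) ≤ r := by nlinarith [l2 n]
    have a3 := H _ _ a1 a2
    have a4 : B * ν (γ₁ (ε n)) * ν (γ₂ (ε n)) ≤ B * (M₁ * ε n) * (M₂ * ε n) := by
      apply mul_le_mul (mul_le_mul_of_nonneg_left (l1 n) hB) (l2 n) (h.nonneg _)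
      positivity
    rw [Real.norm_eq_abs, ← sub_div, ← sub_div, abs_div, abs_of_pos h0, div_le_iff₀ h0]
    calc _ ≤ B * (M₁ * ε n) * (M₂ * ε n) := a3.trans a4
      _ = B * M₁ * M₂ * ε n * ε n := by ring
  have t4 := (t0.sub t1).sub t2
  have := tendsto_nhds_unique t4 t3
  linarith

theorem ell_smul (h : IsGN ν C) (hT : IsURep T) {M : ℝ} (hM : 0 ≤ M) {γ : ℝ → G}
    (hγ : IsOP ν M γ) {ξ : E} (hξ : Sm ν T ξ) (c : ℝ) :
    ell T γ ((c : ℂ) • ξ) = c ^ 2 * ell T γ ξ := by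
  have hd := (hasDerivAt_orbit h hT hξ hM hγ).const_smul (c : ℂ)
  have e : dv T γ ((c : ℂ) • ξ) = (c : ℂ) • dv T γ ξ := by
    rw [← hd.deriv, dv]
    congr 1
    funext t
    simp
  rw [ell, e, inner_smul_left, inner_smul_right, Complex.conj_ofReal, Complex.im_ofReal_mul,
    Complex.im_ofReal_mul, ell]
  ring

theorem an_of_ell (h : IsGN ν C) (hT : IsURep T) (S : Submodule ℂ E)
    (hS : ∀ ξ ∈ S, Sm ν T ξ) (hinv : ∀ g, ν g ≤ 1 / C → ∀ ξ ∈ S, T g ξ ∈ S) {M : ℝ} (hM : 0 ≤ M)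
    {γ : ℝ → G} (hγ : IsOP ν M γ) (hpos : ∀ ξ ∈ S, 0 ≤ ell T γ ξ) :
    ∀ ξ ∈ S, An (fun t => T (γ t) ξ) := by
  intro ξ hξS
  have hξ := hS ξ hξS
  have hC : 0 < C := lt_of_lt_of_le one_pos h.one_le
  have hmem0 : ∀ (s : ℝ), M * |s| ≤ 1 / C → ∀ n : ℕ, T (γ (n * s)) ξ ∈ S := by
    intro s hs n
    induction n with
    | zero => rw [Nat.cast_zero, zero_mul, orbit_zero h hξ hγ]; exact hξS
    | succ n ih =>
      have e : ((n + 1 : ℕ) : ℝ) * s = s + n * s := by push_cast; ring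
      rw [e, ← orbit_add hT hξ hγ]
      exact hinv _ ((hγ.lip s).trans hs) _ ih
  have hmem : ∀ t, T (γ t) ξ ∈ S := by
    intro t
    obtain ⟨n, hn⟩ := exists_nat_gt (C * (M * |t|))
    have hn0 : (0 : ℝ) < n := lt_of_le_of_lt (by positivity) hn
    have := hmem0 (t / n) (by
      rw [abs_div, abs_of_pos hn0, ← mul_div_assoc, div_le_div_iff₀ hn0 hC]
      linarith) n
    rwa [mul_div_cancel₀ _ hn0.ne'] at this
  obtain ⟨B, r, hB, hr, H⟩ := op_quad h hT hξ M hM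
  have hq : ∀ t s : ℝ, |s| ≤ r →
      ‖T (γ (t + s)) ξ - T (γ t) ξ - s • T (γ t) (dv T γ ξ)‖ ≤ B * s ^ 2 := by
    intro t s hs
    have a := H γ hγ s hs
    rw [← hT.norm_eq (γ t), map_sub, map_sub, map_smul, orbit_add hT hξ hγ,
      Complex.coe_smul] at a
    exact a
  have hd : ∀ t, HasDerivAt (fun t : ℝ => T (γ t) ξ) (T (γ t) (dv T γ ξ)) t := fun t =>
    hasDerivAt_of_quad _ _ t B r hr (hq t)
  have hcc : Continuous fun t : ℝ => T (γ t) ξ :=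
    continuous_iff_continuousAt.mpr fun t => (hd t).continuousAt
  have hc' : Continuous fun t : ℝ => T (γ t) (dv T γ ξ) := by
    refine continuous_of_uniform_approx_of_continuous fun u hu => ?_
    obtain ⟨δ, hδ, hu⟩ := Metric.mem_uniformity_dist.mp hu
    set s := min r (δ / (B + 1)) with hs
    have hs0 : 0 < s := by positivity
    have hs1 : s * (B + 1) ≤ δ := (le_div_iff₀ (by positivity)).mp (min_le_right _ _)
    refine ⟨fun t => s⁻¹ • (T (γ (t + s)) ξ - T (γ t) ξ), ?_, fun t => hu ?_⟩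
    · exact ((hcc.comp (continuous_id.add continuous_const)).sub hcc).const_smul s⁻¹
    · have a := hq t s (by rw [abs_of_pos hs0]; exact min_le_left _ _)
      have e : s⁻¹ • (T (γ (t + s)) ξ - T (γ t) ξ) - T (γ t) (dv T γ ξ) =
          s⁻¹ • (T (γ (t + s)) ξ - T (γ t) ξ - s • T (γ t) (dv T γ ξ)) := by
        rw [smul_sub s⁻¹ (_ - _), smul_smul, inv_mul_cancel₀ hs0.ne', one_smul]
      rw [dist_comm, dist_eq_norm, e, norm_smul, norm_inv, Real.norm_eq_abs, abs_of_pos hs0,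
        inv_mul_lt_iff₀ hs0]
      nlinarith
  refine an_of_pos _ (fun t => T (γ t) (dv T γ ξ)) hd hc' (max ‖ξ‖ ‖dv T γ ξ‖) ?_ ?_ ?_
  · intro t; rw [hT.norm_eq]; exact le_max_left _ _
  · intro t; rw [hT.norm_eq]; exact le_max_right _ _
  · intro s a
    have hη : ∑ t ∈ s, a t • T (γ t) ξ ∈ S := S.sum_mem fun t _ => S.smul_mem _ (hmem t)
    have hp := hpos _ hη
    have hD : HasDerivAt (fun z : ℝ => ∑ t ∈ s, a t • T (γ (z + t)) ξ)
        (∑ t ∈ s, a t • T (γ t) (dv T γ ξ)) 0 := by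
      refine HasDerivAt.fun_sum fun t _ => ?_
      have h0 : HasDerivAt (fun t : ℝ => T (γ t) ξ) (T (γ t) (dv T γ ξ)) (0 + t) := by
        rw [zero_add]; exact hd t
      exact (h0.comp_add_const 0 t).const_smul (a t)
    have e : dv T γ (∑ t ∈ s, a t • T (γ t) ξ) = ∑ t ∈ s, a t • T (γ t) (dv T γ ξ) := by
      rw [← hD.deriv, dv]
      congr 1
      funext z
      simp only [map_sum, map_smul, orbit_add hT hξ hγ]
    rw [ell, e] at hp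
    exact hp

end

end Pool.Agent.H754Z.TA
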